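import Pool.Agent.MP_646035_al.Mg.H71_Main
import Pool.Agent.MP_646035_al.Mg.NO_Cross
import Pool.Agent.MP_646035_al.Mg.NO_Final

/-!
Exponential growth rates in the four classes.

1. There is a finitely generated linear group of exponential growth whose set of growth rates has
   no minimum.
2. There is such a group that is a uniform lattice in a closed subgroup of `GL m ℝ` with finitely
   many connected components.
3. There is such a group that is acylindrically hyperbolic.
4. The set of growth rates of the mapping class group of a connected orientable surface of finite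
   type is well-ordered, and so is that of every subgroup of finite index of the extended mapping
   class group. The same holds for every subgroup of finite index of the mapping class group of a
   connected non-orientable surface of finite type: the closed surface `k.Cross` is the surface of
   genus `g` with one or two discs replaced by cross caps.
-/

namespace Pool.Agent.Results.MP_646035_al.FourClasses

open Pool.Agent.MP_646035_al Pool.Agent.MP_646035_al.MC Pool.Agent.MP_4a6971_al.Mcg

/-- Every genus, number of punctures and number of boundary components occurs in part 4. -/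
theorem all_types (g n b : ℕ) : ∃ c : Marks (Surface g), c.P.card = n ∧ c.b = b :=
  marks_exist g n b

/-- A surface with cross caps is a closed connected surface, and all numbers of punctures and of
boundary components occur. -/
theorem all_types_cross (g : ℕ) (k : Marks (Surface g)) :
    CompactSpace k.Cross ∧ T2Space k.Cross ∧ ConnectedSpace k.Cross ∧
      (∀ x : k.Cross, ∃ d : ℂ → k.Cross, Topology.IsOpenEmbedding d ∧ d 0 = x) ∧
      ∀ n b, ∃ c : Marks k.Cross, c.P.card = n ∧ c.b = b :=
  NO.cross_types g k

/-- The set of growth rates of every subgroup of finite index of `G` is well-ordered. -/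
def AllWO (G : Type) [Group G] : Prop :=
  ∀ H : Subgroup G, H.FiniteIndex → ∀ A ⊆ growthSet H, A.Nonempty → ∃ a, IsLeast A a

theorem result :
    (∃ (n : ℕ) (G : Subgroup (GL (Fin n) ℝ)), G.FG ∧ (∃ e ∈ growthSet G, 1 < e) ∧
      ∀ e, ¬ IsLeast (growthSet G) e) ∧
    (∃ (m : ℕ) (L : Subgroup (GL (Fin m) ℝ)), IsClosed (L : Set (GL (Fin m) ℝ)) ∧
      Finite (ConnectedComponents L) ∧ ∃ Γ : Subgroup L, DiscreteTopology Γ ∧
        CompactSpace (L ⧸ Γ) ∧ Γ.FG ∧ (∃ e ∈ growthSet Γ, 1 < e) ∧
          ∀ e, ¬ IsLeast (growthSet Γ) e) ∧
    (∃ (G : Type) (_ : Group G), Group.FG G ∧ AcylHyp G ∧ (∃ e ∈ growthSet G, 1 < e) ∧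
      ∀ e, ¬ IsLeast (growthSet G) e) ∧
    ∀ g : ℕ,
      (∀ c : Marks (Surface g), (∀ A ⊆ growthSet c.MCG, A.Nonempty → ∃ a, IsLeast A a) ∧
        AllWO c.Ext) ∧
      ∀ k : Marks (Surface g), k.b = 1 ∨ k.b = 2 → ∀ c : Marks k.Cross, AllWO c.Ext :=
  ⟨class1_noMin, PC.main, H71.class3_noMin,
    fun g => ⟨fun c => ⟨class4 g c, class4x g c⟩, NO.class4n g⟩⟩

end Pool.Agent.Results.MP_646035_al.FourClasses
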