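import Pool.Agent.MP_646035_al.Mg.H43_Lattice

/-!
The set of exponential growth rates of a lattice in a semisimple Lie group with finite centre
and finitely many components is well-ordered.

`G` is a linear connected semisimple group in the sense of Knapp: a closed connected subgroup of
`GL n ℂ`, stable under conjugate transpose, with finite centre.  `L` maps to `GL n ℂ` by a proper
continuous homomorphism whose image contains `G`, the preimage of `G` having finite index.
A lattice is a discrete subgroup whose coset space carries a nonzero finite invariant Borel measure.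
-/

namespace Pool.Agent.Results.MP_646035_al.SemisimpleLattices

open Pool.Agent.MP_646035_al MeasureTheory

theorem result {n : ℕ} (G : Subgroup (GL (Fin n) ℂ))
    (hclosed : IsClosed (G : Set (GL (Fin n) ℂ))) (hconn : IsConnected (G : Set (GL (Fin n) ℂ)))
    (hadj : ∀ g ∈ G, ∃ h ∈ G,
      (h : Matrix (Fin n) (Fin n) ℂ) = (g : Matrix (Fin n) (Fin n) ℂ).conjTranspose)
    (hcentre : Finite (Subgroup.center G))
    (L : Type*) [Group L] [TopologicalSpace L] [IsTopologicalGroup L] [T2Space L]
    (π : L →* GL (Fin n) ℂ) (hπ : IsProperMap π) (hle : G ≤ π.range)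
    (hindex : (G.comap π).FiniteIndex)
    (Γ : Subgroup L) (hdisc : DiscreteTopology Γ)
    [MeasurableSpace (L ⧸ Γ)] [BorelSpace (L ⧸ Γ)] (μ : Measure (L ⧸ Γ))
    (hfin : IsFiniteMeasure μ) (hinv : SMulInvariantMeasure L (L ⧸ Γ) μ) (hne : μ ≠ 0) :
    ∀ A ⊆ growthSet Γ, A.Nonempty → ∃ a, IsLeast A a :=
  H43.wo_of_lattice ⟨hclosed, hconn.isPreconnected, fun g hg => by
    obtain ⟨h, h1, h2⟩ := hadj g hg
    exact (Units.ext h2 : h = star g) ▸ h1, hcentre⟩ π hπ hle Γ μ hne

end Pool.Agent.Results.MP_646035_al.SemisimpleLattices
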