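import Pool.Agent.MP_646035_al.Mg.H43_Dens

/-!
The set of exponential growth rates of a group which is, up to finite index and finite kernel,
Zariski dense in a connected semisimple group of complex matrices is well-ordered.

`G` is a linear connected semisimple group in the sense of Knapp: a closed connected subgroup of
`GL n ℂ`, stable under conjugate transpose, with finite centre.
-/

namespace Pool.Agent.Results.MP_646035_al.SemisimpleLinear

open Pool.Agent.MP_646035_al

theorem result {n : ℕ} (G : Subgroup (GL (Fin n) ℂ))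
    (hclosed : IsClosed (G : Set (GL (Fin n) ℂ))) (hconn : IsConnected (G : Set (GL (Fin n) ℂ)))
    (hadj : ∀ g ∈ G, ∃ h ∈ G,
      (h : Matrix (Fin n) (Fin n) ℂ) = (g : Matrix (Fin n) (Fin n) ℂ).conjTranspose)
    (hcentre : Finite (Subgroup.center G))
    (Γ : Type*) [Group Γ] (Γ₀ : Subgroup Γ) (hindex : Γ₀.FiniteIndex)
    (f : Γ₀ →* G) (hker : Finite f.ker)
    (hdense : ∀ p : MvPolynomial (Fin n × Fin n) ℂ,
      (∀ γ : Γ₀, MvPolynomial.eval
        (fun x => ((f γ : GL (Fin n) ℂ) : Matrix (Fin n) (Fin n) ℂ) x.1 x.2) p = 0) →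
      ∀ g ∈ G, MvPolynomial.eval (fun x => (g : Matrix (Fin n) (Fin n) ℂ) x.1 x.2) p = 0) :
    ∀ A ⊆ growthSet Γ, A.Nonempty → ∃ a, IsLeast A a :=
  H43.wo_of_zariski ⟨hclosed, hconn.isPreconnected, fun g hg => by
    obtain ⟨h, h1, h2⟩ := hadj g hg
    exact (Units.ext h2 : h = star g) ▸ h1, hcentre⟩ Γ₀ f hker fun p hp g => hdense p hp g g.2

end Pool.Agent.Results.MP_646035_al.SemisimpleLinear
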