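import Pool.Agent.MP_646035_al.Mg.H91_Final

/-!
There is a uniform lattice in the Lie group Sol whose set of exponential growth rates is not
well-ordered.
-/

namespace Pool.Agent.Results.MP_646035_al.SolLattice

open Pool.Agent.MP_646035_al Pool.Agent.MP_646035_al.H91

theorem result :
    ∃ Γ : Subgroup Sol, DiscreteTopology Γ ∧ CompactSpace (Sol ⧸ Γ) ∧ Γ.FG ∧
      (∃ e ∈ growthSet Γ, 1 < e) ∧ ∃ A ⊆ growthSet Γ, A.Nonempty ∧ ∀ a, ¬ IsLeast A a :=
  main

end Pool.Agent.Results.MP_646035_al.SolLattice
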